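import Mathlib
import Pool.Agent.W811.LW.Stm

/-!
# Summation over the classes
-/

set_option autoImplicit false
open Finset Filter Topology
open scoped ENNReal

namespace Pool.Agent.W287.LW

open Pool.Agent.W811.LW

theorem et_pos {g : ℝ} (hg : 0 < g) (i : ℤ) : 0 < et g i := by
  unfold et
  split_ifs
  · exact zpow_pos hg _
  · exact zpow_pos hg _

theorem rs_nonneg (y : ℝ) : 0 ≤ rs y := inv_nonneg.2 (Real.sqrt_nonneg y)

theorem et_neg {g : ℝ} (hg : 0 < g) (i : ℤ) : et g i = et g (-i) * g ^ (4 * i) := by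
  unfold et
  rcases lt_trichotomy i 0 with h | h | h
  · rw [if_neg (by omega), if_pos (by omega), ← zpow_add₀ hg.ne']
    congr 1
    ring
  · subst h
    simp
  · rw [if_pos (by omega), if_neg (by omega), ← zpow_add₀ hg.ne']
    congr 1
    ring

theorem et_abs {g : ℝ} (hg : 0 < g) (i : ℤ) : et g i * g ^ (-2 * i) = g ^ (-|i|) := by
  unfold et
  rcases le_or_gt 0 i with h | h
  · rw [if_pos h, ← zpow_add₀ hg.ne', abs_of_nonneg h]
    congr 1
    ring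
  · rw [if_neg (by omega), ← zpow_add₀ hg.ne', abs_of_neg h]
    congr 1
    ring

theorem et_add {g : ℝ} (hg : 1 ≤ g) (k u : ℤ) (hu : 0 ≤ u) : g ^ u * et g k ≤ et g (k + u) := by
  have hg0 : g ≠ 0 := by positivity
  unfold et
  rcases le_or_gt 0 k with h | h
  · rw [if_pos h, if_pos (by omega), ← zpow_add₀ hg0]
    apply zpow_le_zpow_right₀ hg
    omega
  · rw [if_neg (by omega)]
    split_ifs with h2
    · rw [← zpow_add₀ hg0]
      apply zpow_le_zpow_right₀ hg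
      omega
    · rw [← zpow_add₀ hg0]
      apply zpow_le_zpow_right₀ hg
      omega

theorem four_zpow (g : ℝ) (i : ℤ) : (g ^ 4) ^ (-2 * i) = (g ^ (-2 * i)) ^ 4 := by
  rw [← zpow_natCast g 4, ← zpow_natCast (g ^ (-2 * i)) 4, ← zpow_mul, ← zpow_mul]
  congr 1
  push_cast
  ring

theorem case_b {g κ y : ℝ} (hg : 0 < g) (hκ : 0 < κ) (hy : 0 < y) (i : ℤ)
    (h : κ ^ 4 ≤ (g ^ 4) ^ (-2 * i) * y ^ 2) : et g i * rs y ≤ κ⁻¹ * g ^ (-|i|) := by
  rw [four_zpow] at h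
  have ha : 0 < g ^ (-2 * i) := zpow_pos hg _
  have hs : 0 < Real.sqrt y := Real.sqrt_pos.2 hy
  have hss : Real.sqrt y ^ 2 = y := Real.sq_sqrt hy.le
  have h2 : κ ^ 4 ≤ (g ^ (-2 * i) * Real.sqrt y) ^ 4 := by
    calc κ ^ 4 ≤ (g ^ (-2 * i)) ^ 4 * y ^ 2 := h
      _ = (g ^ (-2 * i) * Real.sqrt y) ^ 4 := by
        rw [mul_pow]
        congr 1
        calc y ^ 2 = (Real.sqrt y ^ 2) ^ 2 := by rw [hss]
          _ = Real.sqrt y ^ 4 := by ring
  have h3 : κ ≤ g ^ (-2 * i) * Real.sqrt y :=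
    (pow_le_pow_iff_left₀ hκ.le (by positivity) (by norm_num)).1 h2
  have h4 : rs y ≤ g ^ (-2 * i) * κ⁻¹ := by
    unfold rs
    rw [← div_eq_mul_inv, inv_le_iff_one_le_mul₀ hs, div_mul_eq_mul_div, le_div_iff₀ hκ, one_mul]
    exact h3
  calc et g i * rs y ≤ et g i * (g ^ (-2 * i) * κ⁻¹) :=
        mul_le_mul_of_nonneg_left h4 (et_pos hg i).le
    _ = κ⁻¹ * (et g i * g ^ (-2 * i)) := by ring
    _ = κ⁻¹ * g ^ (-|i|) := by rw [et_abs hg]

theorem case_c {g C2 y z : ℝ} (hg : 1 ≤ g) (hC2 : 1 ≤ C2) (hy : 0 < y) (hz : 0 < z) (i i' : ℤ)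
    (hu : 0 ≤ i + i') (h : z ≤ C2 * (g ^ 4) ^ (-2 * i) * y) :
    et g i * rs y ≤ Real.sqrt C2 * g ^ (-(i + i')) * (et g i' * rs z) := by
  have hg0 : 0 < g := by positivity
  have hsy : 0 < Real.sqrt y := Real.sqrt_pos.2 hy
  have hsz : 0 < Real.sqrt z := Real.sqrt_pos.2 hz
  have hx : Real.sqrt ((g ^ 4) ^ (-2 * i)) = g ^ (-4 * i) := by
    rw [four_zpow]
    have h1 : (g ^ (-2 * i)) ^ 4 = (g ^ (-4 * i)) ^ 2 := by
      rw [← zpow_natCast, ← zpow_natCast, ← zpow_mul, ← zpow_mul]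
      congr 1
      push_cast
      ring
    rw [h1, Real.sqrt_sq (zpow_pos hg0 _).le]
  have h1 : Real.sqrt z ≤ Real.sqrt C2 * g ^ (-4 * i) * Real.sqrt y := by
    rw [← hx, ← Real.sqrt_mul (by linarith), ← Real.sqrt_mul (by positivity)]
    exact Real.sqrt_le_sqrt h
  have h2 : rs y ≤ Real.sqrt C2 * g ^ (-4 * i) * rs z := by
    unfold rs
    rw [← div_eq_mul_inv, inv_le_iff_one_le_mul₀ hsy, div_mul_eq_mul_div, le_div_iff₀ hsz, one_mul]
    exact h1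
  have h3 : et g (-i) ≤ g ^ (-(i + i')) * et g i' := by
    have h4 := et_add hg (-i) (i + i') hu
    have h5 : -i + (i + i') = i' := by ring
    rw [h5] at h4
    have h6 : g ^ (-(i + i')) * (g ^ (i + i') * et g (-i)) = et g (-i) := by
      rw [← mul_assoc, ← zpow_add₀ hg0.ne', neg_add_cancel, zpow_zero, one_mul]
    rw [← h6]
    exact mul_le_mul_of_nonneg_left h4 (zpow_pos hg0 _).le
  have h4 : et g i * g ^ (-4 * i) = et g (-i) := by
    rw [et_neg hg0 i, mul_assoc, ← zpow_add₀ hg0.ne']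
    have h5 : 4 * i + -4 * i = 0 := by ring
    rw [h5, zpow_zero, mul_one]
  calc et g i * rs y ≤ et g i * (Real.sqrt C2 * g ^ (-4 * i) * rs z) :=
        mul_le_mul_of_nonneg_left h2 (et_pos hg0 i).le
    _ = Real.sqrt C2 * rs z * (et g i * g ^ (-4 * i)) := by ring
    _ = Real.sqrt C2 * rs z * et g (-i) := by rw [h4]
    _ ≤ Real.sqrt C2 * rs z * (g ^ (-(i + i')) * et g i') :=
        mul_le_mul_of_nonneg_left h3 (mul_nonneg (Real.sqrt_nonneg _) (rs_nonneg _))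
    _ = _ := by ring

theorem e48 : ENNReal.ofReal (1 / 48) = 1 / 48 := by
  rw [ENNReal.ofReal_div_of_pos (by norm_num)]
  simp

theorem sum_abs {g B : ℝ} (hg : 1 < g) (hB : 0 ≤ B) :
    ∑' i : ℤ, ENNReal.ofReal (B * g ^ (-|i|)) ≠ ⊤ := by
  have hg0 : 0 < g := by positivity
  have hgi : g⁻¹ < 1 := inv_lt_one_of_one_lt₀ hg
  have hge : Summable (fun n : ℕ => B * g⁻¹ ^ n) :=
    (summable_geometric_of_lt_one (inv_nonneg.2 hg0.le) hgi).mul_left B
  have h1 : Summable (fun i : ℤ => B * g ^ (-|i|)) := by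
    apply Summable.of_nat_of_neg
    · refine hge.congr (fun n => ?_)
      rw [Nat.abs_cast, zpow_neg, zpow_natCast, inv_pow]
    · refine hge.congr (fun n => ?_)
      rw [abs_neg, Nat.abs_cast, zpow_neg, zpow_natCast, inv_pow]
  exact h1.tsum_ofReal_ne_top

theorem sum_tail {g B : ℝ} (hg : 2 ≤ g) (hB : 0 ≤ B) (I0 : ℕ) (h : 2 * B * g⁻¹ ^ I0 ≤ 1 / 48)
    (c : ℤ) (idx : ℕ → ℤ) (hinj : Function.Injective idx) :
    ∑' m : ℕ, (if (I0 : ℤ) ≤ idx m + c then ENNReal.ofReal (B * g ^ (-(idx m + c))) else 0) ≤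
      1 / 48 := by
  have hg0 : 0 < g := by positivity
  have hgi : g⁻¹ ≤ 1 / 2 := by
    rw [inv_le_comm₀ hg0 (by norm_num)]
    norm_num
    exact hg
  have hgi0 : 0 ≤ g⁻¹ := inv_nonneg.2 hg0.le
  let ψ : ℤ → ℝ≥0∞ := fun u => if (I0 : ℤ) ≤ u then ENNReal.ofReal (B * g ^ (-u)) else 0
  have h1 : ∑' m : ℕ, ψ (idx m + c) ≤ ∑' u : ℤ, ψ u :=
    ENNReal.tsum_comp_le_tsum_of_injective (f := fun m => idx m + c)
      (fun a b hab => hinj (add_right_cancel hab)) ψ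
  have h2 : ∑' n : ℕ, ψ ((I0 : ℤ) + n) = ∑' u : ℤ, ψ u := by
    apply Function.Injective.tsum_eq (g := fun n : ℕ => (I0 : ℤ) + n)
    · intro a b hab
      have : (I0 : ℤ) + a = I0 + b := hab
      omega
    · intro u hu
      have hu' : (I0 : ℤ) ≤ u := by
        by_contra hcon
        apply hu
        show (if (I0 : ℤ) ≤ u then ENNReal.ofReal (B * g ^ (-u)) else 0) = 0
        rw [if_neg hcon]
      exact ⟨(u - I0).toNat, by
        show (I0 : ℤ) + ((u - I0).toNat : ℤ) = u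
        omega⟩
  have h3 : ∀ n : ℕ, ψ ((I0 : ℤ) + n) = ENNReal.ofReal (B * g⁻¹ ^ I0 * g⁻¹ ^ n) := by
    intro n
    show (if (I0 : ℤ) ≤ (I0 : ℤ) + n then ENNReal.ofReal (B * g ^ (-((I0 : ℤ) + n))) else 0) = _
    rw [if_pos (by omega)]
    congr 1
    rw [mul_assoc, ← pow_add, zpow_neg, ← Nat.cast_add, zpow_natCast, inv_pow]
  have hgs : Summable (fun n : ℕ => B * g⁻¹ ^ I0 * g⁻¹ ^ n) :=
    (summable_geometric_of_lt_one hgi0 (by linarith)).mul_left _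
  have h4 : ∑' n : ℕ, ψ ((I0 : ℤ) + n) = ENNReal.ofReal (∑' n : ℕ, B * g⁻¹ ^ I0 * g⁻¹ ^ n) := by
    rw [ENNReal.ofReal_tsum_of_nonneg (fun n => by positivity) hgs]
    exact tsum_congr h3
  have h5 : ∑' n : ℕ, B * g⁻¹ ^ I0 * g⁻¹ ^ n ≤ 1 / 48 := by
    rw [tsum_mul_left, tsum_geometric_of_lt_one hgi0 (by linarith)]
    have h6 : (1 - g⁻¹)⁻¹ ≤ 2 := by
      rw [inv_le_comm₀ (by linarith) (by norm_num)]
      linarith
    have h7 : 0 ≤ B * g⁻¹ ^ I0 := by positivity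
    calc B * g⁻¹ ^ I0 * (1 - g⁻¹)⁻¹ ≤ B * g⁻¹ ^ I0 * 2 := mul_le_mul_of_nonneg_left h6 h7
      _ = 2 * B * g⁻¹ ^ I0 := by ring
      _ ≤ 1 / 48 := h
  calc ∑' m : ℕ, (if (I0 : ℤ) ≤ idx m + c then ENNReal.ofReal (B * g ^ (-(idx m + c))) else 0)
      = ∑' m : ℕ, ψ (idx m + c) := rfl
    _ ≤ ∑' u : ℤ, ψ u := h1
    _ = ENNReal.ofReal (∑' n : ℕ, B * g⁻¹ ^ I0 * g⁻¹ ^ n) := by rw [← h2, h4]
    _ ≤ ENNReal.ofReal (1 / 48) := ENNReal.ofReal_le_ofReal h5
    _ = 1 / 48 := e48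

theorem kern : KERN := by
  intro G c5 C1 C2 E hG hc5 hC1 hC2 hE
  have hg : (1000 : ℝ) ≤ (G : ℝ) := by exact_mod_cast hG
  set g : ℝ := (G : ℝ) with hgdef
  have hg0 : 0 < g := by linarith
  have hsC : 1 ≤ Real.sqrt C2 := Real.one_le_sqrt.2 hC2
  have hB0 : 0 < E * Real.sqrt C2 := by positivity
  obtain ⟨I0, hI0⟩ : ∃ n : ℕ, g⁻¹ ^ n < 1 / (48 * (2 * (E * Real.sqrt C2))) :=
    exists_pow_lt_of_lt_one (by positivity) (inv_lt_one_of_one_lt₀ (by linarith))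
  have hI1 : 2 * (E * Real.sqrt C2) * g⁻¹ ^ I0 ≤ 1 / 48 := by
    rw [lt_div_iff₀ (by positivity)] at hI0
    rw [le_div_iff₀ (by norm_num)]
    linarith
  have hDI : 0 < (g ^ 4) ^ (-2 * (I0 : ℤ)) := zpow_pos (by positivity) _
  obtain ⟨c', hc'⟩ : ∃ c' : ℝ, c' = min c5 ((g ^ 4) ^ (-2 * (I0 : ℤ)) / C1) := ⟨_, rfl⟩
  have hc'0 : 0 < c' := by
    rw [hc']
    exact lt_min hc5 (div_pos hDI (by linarith))
  obtain ⟨κ, hκ0, hκ⟩ : ∃ κ : ℝ, 0 < κ ∧ κ ^ 4 = c' := by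
    refine ⟨Real.sqrt (Real.sqrt c'), Real.sqrt_pos.2 (Real.sqrt_pos.2 hc'0), ?_⟩
    calc Real.sqrt (Real.sqrt c') ^ 4 = (Real.sqrt (Real.sqrt c') ^ 2) ^ 2 := by ring
      _ = c' := by rw [Real.sq_sqrt (Real.sqrt_nonneg _), Real.sq_sqrt hc'0.le]
  have hEκ : 0 ≤ E * κ⁻¹ := by positivity
  have hfin := sum_abs (g := g) (B := E * κ⁻¹) (by linarith) hEκ
  refine ⟨(∑' i : ℤ, ENNReal.ofReal (E * κ⁻¹ * g ^ (-|i|))).toReal, ENNReal.toReal_nonneg, ?_⟩
  intro idx idx' y z T hinj hy hz hT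
  rw [ENNReal.ofReal_toReal hfin]
  obtain ⟨gz, hgz⟩ : ∃ gz : ℕ → ℝ, ∀ m, gz m = et g (idx' m) * rs (z m) := ⟨_, fun m => rfl⟩
  obtain ⟨h, hh⟩ : ∃ h : ℕ → ℝ, ∀ m, h m = et g (idx m) * rs (y m) := ⟨_, fun m => rfl⟩
  let F3 : ℕ → ℕ → ℝ≥0∞ := fun m m' =>
    (if (I0 : ℤ) ≤ idx m + idx' m' then
      ENNReal.ofReal (E * Real.sqrt C2 * g ^ (-(idx m + idx' m'))) else 0) * ENNReal.ofReal (gz m')
  have key : ∀ m, ENNReal.ofReal (T m) ≤ ENNReal.ofReal (1 / 48 * h m) +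
      ENNReal.ofReal (E * κ⁻¹ * g ^ (-|idx m|)) + ∑' m', F3 m m' := by
    intro m
    have hb : T m ≤ E * (et g (idx m) * rs (y m)) → κ ^ 4 ≤ (g ^ 4) ^ (-2 * idx m) * (y m) ^ 2 →
        ENNReal.ofReal (T m) ≤ ENNReal.ofReal (1 / 48 * h m) +
        ENNReal.ofReal (E * κ⁻¹ * g ^ (-|idx m|)) + ∑' m', F3 m m' := by
      intro h1 h2
      have h3 := case_b hg0 hκ0 (hy m) (idx m) h2
      have h4 : T m ≤ E * κ⁻¹ * g ^ (-|idx m|) := by
        calc T m ≤ E * (et g (idx m) * rs (y m)) := h1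
          _ ≤ E * (κ⁻¹ * g ^ (-|idx m|)) := mul_le_mul_of_nonneg_left h3 (by linarith)
          _ = _ := by ring
      calc ENNReal.ofReal (T m) ≤ ENNReal.ofReal (E * κ⁻¹ * g ^ (-|idx m|)) :=
            ENNReal.ofReal_le_ofReal h4
        _ ≤ ENNReal.ofReal (1 / 48 * h m) + ENNReal.ofReal (E * κ⁻¹ * g ^ (-|idx m|)) :=
            le_add_self
        _ ≤ _ := le_self_add
    rcases hT m with h1 | ⟨h1, h2⟩
    · rw [← hh] at h1
      calc ENNReal.ofReal (T m) ≤ ENNReal.ofReal (1 / 48 * h m) := ENNReal.ofReal_le_ofReal h1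
        _ ≤ ENNReal.ofReal (1 / 48 * h m) + ENNReal.ofReal (E * κ⁻¹ * g ^ (-|idx m|)) :=
            le_self_add
        _ ≤ _ := le_self_add
    · by_cases hk : κ ^ 4 ≤ (g ^ 4) ^ (-2 * idx m) * (y m) ^ 2
      · exact hb h1 hk
      · have hk' : (g ^ 4) ^ (-2 * idx m) * (y m) ^ 2 < c' := by
          rw [← hκ]
          exact not_le.1 hk
        rcases h2 with h2 | ⟨m', h2, h3⟩
        · exfalso
          have h4 : c' ≤ c5 := by rw [hc']; exact min_le_left _ _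
          linarith
        · have hx0 : 0 < (g ^ 4) ^ (-2 * idx m) := zpow_pos (by positivity) _
          have h4 : c' ≤ (g ^ 4) ^ (-2 * (I0 : ℤ)) / C1 := by rw [hc']; exact min_le_right _ _
          have h5 : (g ^ 4) ^ (-2 * (idx m + idx' m')) < (g ^ 4) ^ (-2 * (I0 : ℤ)) := by
            calc (g ^ 4) ^ (-2 * (idx m + idx' m'))
                = (g ^ 4) ^ (-2 * idx m) * (g ^ 4) ^ (-2 * idx' m') := by
                  rw [← zpow_add₀ (by positivity)]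
                  congr 1
                  ring
              _ ≤ (g ^ 4) ^ (-2 * idx m) * (C1 * (y m) ^ 2) :=
                  mul_le_mul_of_nonneg_left h2 hx0.le
              _ = C1 * ((g ^ 4) ^ (-2 * idx m) * (y m) ^ 2) := by ring
              _ < C1 * c' := mul_lt_mul_of_pos_left hk' (by linarith)
              _ ≤ C1 * ((g ^ 4) ^ (-2 * (I0 : ℤ)) / C1) :=
                  mul_le_mul_of_nonneg_left h4 (by linarith)
              _ = (g ^ 4) ^ (-2 * (I0 : ℤ)) := by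
                  have : C1 ≠ 0 := by linarith
                  field_simp
          have h6 : -2 * (idx m + idx' m') < -2 * (I0 : ℤ) := by
            have hg4 : 1 < g ^ 4 := one_lt_pow₀ (by linarith) (by norm_num)
            exact (zpow_lt_zpow_iff_right₀ hg4).1 h5
          have h7 : (I0 : ℤ) ≤ idx m + idx' m' := by omega
          have h8 := case_c (g := g) (by linarith) hC2 (hy m) (hz m') (idx m) (idx' m')
            (by omega) h3
          have h9 : T m ≤ E * Real.sqrt C2 * g ^ (-(idx m + idx' m')) * gz m' := by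
            rw [hgz]
            calc T m ≤ E * (et g (idx m) * rs (y m)) := h1
              _ ≤ E * (Real.sqrt C2 * g ^ (-(idx m + idx' m')) *
                    (et g (idx' m') * rs (z m'))) := mul_le_mul_of_nonneg_left h8 (by linarith)
              _ = _ := by ring
          have h10 : ENNReal.ofReal (T m) ≤ F3 m m' := by
            show _ ≤ (if (I0 : ℤ) ≤ idx m + idx' m' then
              ENNReal.ofReal (E * Real.sqrt C2 * g ^ (-(idx m + idx' m'))) else 0) *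
              ENNReal.ofReal (gz m')
            rw [if_pos h7, ← ENNReal.ofReal_mul (by positivity)]
            exact ENNReal.ofReal_le_ofReal h9
          exact h10.trans ((ENNReal.le_tsum m').trans le_add_self)
  have hF3 : ∑' m, ∑' m', F3 m m' ≤ 1 / 48 * ∑' m', ENNReal.ofReal (gz m') := by
    rw [ENNReal.tsum_comm, ← ENNReal.tsum_mul_left]
    refine ENNReal.tsum_le_tsum (fun m' => ?_)
    show ∑' m, (if (I0 : ℤ) ≤ idx m + idx' m' then
      ENNReal.ofReal (E * Real.sqrt C2 * g ^ (-(idx m + idx' m'))) else 0) *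
      ENNReal.ofReal (gz m') ≤ _
    rw [ENNReal.tsum_mul_right]
    gcongr
    exact sum_tail (by linarith) hB0.le I0 hI1 (idx' m') idx hinj
  have hF2 : ∑' m, ENNReal.ofReal (E * κ⁻¹ * g ^ (-|idx m|)) ≤
      ∑' i : ℤ, ENNReal.ofReal (E * κ⁻¹ * g ^ (-|i|)) :=
    ENNReal.tsum_comp_le_tsum_of_injective hinj
      (fun i : ℤ => ENNReal.ofReal (E * κ⁻¹ * g ^ (-|i|)))
  have hF1 : ∑' m, ENNReal.ofReal (1 / 48 * h m) = 1 / 48 * ∑' m, ENNReal.ofReal (h m) := by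
    rw [← ENNReal.tsum_mul_left]
    refine tsum_congr (fun m => ?_)
    rw [ENNReal.ofReal_mul (by norm_num), e48]
  simp only [← hh, ← hgz]
  calc ∑' m, ENNReal.ofReal (T m)
      ≤ ∑' m, (ENNReal.ofReal (1 / 48 * h m) + ENNReal.ofReal (E * κ⁻¹ * g ^ (-|idx m|)) +
          ∑' m', F3 m m') := ENNReal.tsum_le_tsum key
    _ = ∑' m, ENNReal.ofReal (1 / 48 * h m) + ∑' m, ENNReal.ofReal (E * κ⁻¹ * g ^ (-|idx m|)) +
          ∑' m, ∑' m', F3 m m' := by rw [ENNReal.tsum_add, ENNReal.tsum_add]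
    _ ≤ 1 / 48 * ∑' m, ENNReal.ofReal (h m) +
          ∑' i : ℤ, ENNReal.ofReal (E * κ⁻¹ * g ^ (-|i|)) +
          1 / 48 * ∑' m', ENNReal.ofReal (gz m') := by
        rw [hF1]
        gcongr
    _ = _ := by
        rw [add_assoc, add_comm (∑' i : ℤ, ENNReal.ofReal (E * κ⁻¹ * g ^ (-|i|))), ← add_assoc]

end Pool.Agent.W287.LW
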